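import Pool.Agent.Y121.AHS.CDefs
import Pool.Agent.Q82.OC.Defs

/-!
# Hodge classes and absolutely Hodge classes on squares: definitions
-/

set_option autoImplicit false

open CategoryTheory AlgebraicGeometry

universe u

namespace Pool.Agent.Q82.PD

open Pool.Agent.H914 VarClass Obj WeilCohomology
open Pool.Agent.Y121.AHS
open Pool.Agent.Q82.OC

variable {k : Type u} [Field k] {𝒱 : VarClass k} {ops : CycleOps 𝒱} {T : HodgeTheory ops}

/-- All Hodge classes of codimension `j` on `Z` are absolutely Hodge: for every conjugate theory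
there is one Hodge class which corresponds to the given one with respect to all comparison
isomorphisms. -/
def HodgeIsAbs (D : Full.Conjugates T) (Z : 𝒱.Obj) (j : ℕ) : Prop :=
  ∀ c, IsHodge T Z j c → Full.IsAbsHodge D Z j c

/-- All Hodge classes on `X × X`, of any codimension, which act as zero on `H^i(X)` for `i ≠ j` and
map `H^j(X)` to `H^(j')(X)` are absolutely Hodge. (These classes are the morphisms of Hodge
structures from `H^j(X)` to the Tate twists of `H^(j')(X)`.) -/
def HomIsAbs (D : Full.Conjugates T) (X : 𝒱.Obj) (j j' : ℕ) : Prop :=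
  ∀ (q : ℕ) (c : T.W.H (X.prod X)), IsHodge T (X.prod X) q c → j + 2 * q = j' + 2 * X.dim →
    ActsOnlyOn T.W X j c → Full.IsAbsHodge D (X.prod X) q c

/-- All Hodge classes on `X × X` of the Kunneth types `(2 n - j, j')` with
`|n - j| + |n - j'| ≥ 2 (n - d)`, `n = dim X`, are absolutely Hodge. -/
def FarIsAbs (D : Full.Conjugates T) (X : 𝒱.Obj) (d : ℕ) : Prop :=
  ∀ j j', Far X.dim d j j' → HomIsAbs D X j j'

/-- All Hodge classes on the product of two copies of `X` of codimension `q` are absolutely
Hodge. -/
def SquareIsAbs (D : Full.Conjugates T) (X : 𝒱.Obj) (q : ℕ) : Prop :=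
  HodgeIsAbs D (X.prod X) q

end Pool.Agent.Q82.PD
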