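import Pool.Agent.Q82.PD.Main
import Pool.Agent.Q82.PD.HodgeDefs
import Pool.Agent.Y121.AHS.Law

/-!
# Hodge classes and absolutely Hodge classes on squares
-/

set_option autoImplicit false

open CategoryTheory AlgebraicGeometry

universe u

namespace Pool.Agent.Q82.PD

open Pool.Agent.H914 Pool.Agent.H447 Pool.Agent.W534 VarClass Obj WeilCohomology
open Pool.Agent.Y121 Pool.Agent.Y121.AHS Pool.Agent.Y121.AHS.Full
open Pool.Agent.Q82.OC Pool.Agent.Q82.MH
open Pool.Agent.Y133.Half (ClassPred pw)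

variable {k : Type u} [Field k] {𝒱 : VarClass k} {ops : CycleOps 𝒱} {T : HodgeTheory ops}
  {X : 𝒱.Obj} (D : Full.Conjugates T)

/-- The Hodge classes. -/
noncomputable def hp (T : HodgeTheory ops) : ClassPred T.W := AH.hodgePred (toH T)

/-- The absolutely Hodge classes. -/
noncomputable def ap (D : Full.Conjugates T) : ClassPred T.W := AH.absPred (toD D)

lemma hp_iff {Z : 𝒱.Obj} {j : ℕ} {c : T.W.H Z} : (hp T).P Z j c ↔ IsHodge T Z j c := Iff.rfl

lemma ap_iff {Z : 𝒱.Obj} {j : ℕ} {c : T.W.H Z} : (ap D).P Z j c ↔ Full.IsAbsHodge D Z j c :=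
  isAbsHodge_iff

lemma hodgeIsAbs_iff {Z : 𝒱.Obj} {j : ℕ} : HodgeIsAbs D Z j ↔ Agree (ap D) (hp T) Z j :=
  forall_congr' fun _ => imp_congr_right fun _ => (ap_iff D).symm

lemma hp_nondeg (Z : 𝒱.Obj) : (hp T).sys.Nondeg Z := fun _ hx h =>
  AH.hodge_nondeg (T := toH T) hx h

lemma ap_le {Z : 𝒱.Obj} {j : ℕ} {c : T.W.H Z} (h : (ap D).P Z j c) : (hp T).P Z j c := h.1

lemma exists_polar (Z : 𝒱.Obj) : ∃ E : Z.Cycles, Z.IsCyc 1 E ∧ HardLefschetz T.W Z E := by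
  obtain ⟨E, h1, h2, -⟩ := T.polar Z
  exact ⟨E, h1, h2⟩

/-- One codimension on the square. -/
theorem hodge_one (X : 𝒱.Obj) {d : ℕ} (hd : d < X.dim) :
    (SquareIsAbs D X d ↔ FarIsAbs D X d) ∧
      (SquareIsAbs D X d →
        (∀ q, q ≤ d ∨ 2 * X.dim - d ≤ q → SquareIsAbs D X q) ∧
        ∀ q, q ≤ d ∨ X.dim - d ≤ q → HodgeIsAbs D X q) := by
  obtain ⟨E, hE, hHL⟩ := exists_polar (T := T) X
  have hnd := hp_nondeg (T := T) (X.prod X)
  refine ⟨?_, fun h => ⟨fun q hq => ?_, fun q hq => ?_⟩⟩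
  · rw [SquareIsAbs, hodgeIsAbs_iff, agree_iff (fun h => ap_le D h) hE hHL hnd hd]
    constructor
    · intro h j j' hreg q c hc hjj hk
      exact (ap_iff D).1 (h q c j j' hc hjj hk hreg)
    · intro h q c j j' hc hjj hk hreg
      exact (ap_iff D).2 (h j j' hreg q c hc hjj hk)
  · exact (hodgeIsAbs_iff D).2
      (agree_range (fun h => ap_le D h) hE hHL hnd hd ((hodgeIsAbs_iff D).1 h) hq)
  · exact (hodgeIsAbs_iff D).2
      (agree_self (fun h => ap_le D h) hE hHL hnd hd ((hodgeIsAbs_iff D).1 h) hq)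

/-- All powers. -/
theorem hodge_powers (X : 𝒱.Obj) (hn : 1 ≤ X.dim) :
    (∀ n j, HodgeIsAbs D (pw X n) j) ↔
      ∀ N, ∃ m d, N ≤ d ∧ d < (pw X m).dim ∧ SquareIsAbs D (pw X m) d := by
  have h := agree_powers (X := X) (Q := ap D) (R := hp T) (fun h => ap_le D h)
    (fun n => exists_polar (pw X n)) hp_nondeg hn
  simp only [← hodgeIsAbs_iff] at h
  exact h

end Pool.Agent.Q82.PD
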