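import Pool.Agent.Q82.PD.Hodge

/-!
# Morphisms of Hodge structures between the cohomology groups of a variety
-/

set_option autoImplicit false

open CategoryTheory AlgebraicGeometry

universe u

namespace Pool.Agent.Q82.PD

open Pool.Agent.H914 Pool.Agent.H447 Pool.Agent.W534 VarClass Obj WeilCohomology
open Pool.Agent.Y121 Pool.Agent.Y121.AHS Pool.Agent.Y121.AHS.Full
open Pool.Agent.Q82.OC Pool.Agent.Q82.MH
open Pool.Agent.Y133.Half (ClassPred pw)

variable {k : Type u} [Field k] {𝒱 : VarClass k} {ops : CycleOps 𝒱} {T : HodgeTheory ops}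
  {X : 𝒱.Obj} (D : Full.Conjugates T)

lemma square_iff_homs (X : 𝒱.Obj) {r : ℕ} (hr : 1 ≤ r) (hrn : r ≤ X.dim) :
    SquareIsAbs D X (X.dim - r) ↔ ∀ j, HomIsAbs D X (j + 2 * r) j := by
  constructor
  · intro h j q c hc hj hk
    obtain rfl : q = X.dim - r := by omega
    exact h c hc
  · intro h
    obtain ⟨E, hE, hHL⟩ := exists_polar (T := T) X
    have P := pair_of_nondeg (Q := ap D) (R := hp T) (fun h => ap_le D h) hE hHL
      (hp_nondeg (T := T) (X.prod X)) (by omega)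
    intro c hc
    refine (ap_iff D).1 (of_region P (d := X.dim - r) ?_ hc)
    intro c j j' hc hjj hk _
    obtain rfl : j = j' + 2 * r := by omega
    exact (ap_iff D).2 (h j' _ c hc hjj hk)

/-- **Fullness for one negative twist.** -/
theorem homs_iff (X : 𝒱.Obj) {r : ℕ} (hr : 1 ≤ r) (hrn : r ≤ X.dim) :
    (∀ j, HomIsAbs D X (j + 2 * r) j) ↔
      ∀ j j' : ℕ, 2 * (r : ℤ) ≤ |(X.dim : ℤ) - j| + |(X.dim : ℤ) - j'| → HomIsAbs D X j j' := by
  have h := (hodge_one D X (d := X.dim - r) (by omega)).1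
  rw [← square_iff_homs D X hr hrn, h]
  refine forall_congr' fun j => forall_congr' fun j' => imp_congr_left ?_
  rw [Far, show (X.dim : ℤ) - ((X.dim - r : ℕ) : ℤ) = r by omega]

/-- The twist `-1`. -/
theorem homs_one (X : 𝒱.Obj) (hn : 1 ≤ X.dim) :
    (∀ j, HomIsAbs D X (j + 2) j) ↔
      ∀ j j' : ℕ, ¬ (j = X.dim ∧ j' = X.dim) → HomIsAbs D X j j' := by
  rw [show (∀ j, HomIsAbs D X (j + 2) j) ↔ ∀ j, HomIsAbs D X (j + 2 * 1) j from Iff.rfl,
    homs_iff D X le_rfl hn]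
  constructor
  · intro h j j' hne q c hc hjj hk
    refine h j j' ?_ q c hc hjj hk
    rcases abs_cases ((X.dim : ℤ) - j) with ⟨h1, h2⟩ | ⟨h1, h2⟩ <;>
      rcases abs_cases ((X.dim : ℤ) - j') with ⟨h3, h4⟩ | ⟨h3, h4⟩ <;> omega
  · intro h j j' hj
    refine h j j' ?_
    rintro ⟨rfl, rfl⟩
    simp at hj

/-- The Hodge classes on the variety. -/
theorem homs_self (X : 𝒱.Obj) {r : ℕ} (hr : 1 ≤ r) (hrn : r ≤ X.dim)
    (h : ∀ j, HomIsAbs D X (j + 2 * r) j) {q : ℕ} (hq : q + r ≤ X.dim ∨ r ≤ q) :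
    HodgeIsAbs D X q := by
  refine ((hodge_one D X (d := X.dim - r) (by omega)).2
    ((square_iff_homs D X hr hrn).2 h)).2 q ?_
  omega

/-- All powers. -/
theorem homs_powers (X : 𝒱.Obj) (hn : 1 ≤ X.dim) :
    (∀ n j, HodgeIsAbs D (pw X n) j) ↔
      ∀ N, ∃ m r, 1 ≤ r ∧ r + N ≤ (pw X m).dim ∧ ∀ j, HomIsAbs D (pw X m) (j + 2 * r) j := by
  rw [hodge_powers D X hn]
  constructor
  · intro h N
    obtain ⟨m, d, h1, h2, h3⟩ := h N
    refine ⟨m, (pw X m).dim - d, by omega, by omega, ?_⟩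
    rw [← square_iff_homs D (pw X m) (by omega) (by omega),
      show (pw X m).dim - ((pw X m).dim - d) = d by omega]
    exact h3
  · intro h N
    obtain ⟨m, r, h1, h2, h3⟩ := h N
    exact ⟨m, (pw X m).dim - r, by omega, by omega,
      (square_iff_homs D (pw X m) h1 (by omega)).2 h3⟩

end Pool.Agent.Q82.PD
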