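import Pool.Agent.Q82.PD.Pred
import Pool.Agent.Q82.OC.LowMain

/-!
# Two classes of cohomology classes which agree in one codimension on a square: the results
-/

set_option autoImplicit false

open CategoryTheory AlgebraicGeometry Finset

universe u v

namespace Pool.Agent.Q82.PD

open Pool.Agent.H914 Pool.Agent.H447 Pool.Agent.W534 Pool.Agent.TH132.A VarClass Obj
  WeilCohomology
open Pool.Agent.Q82.OC Pool.Agent.Q82.MH
open Pool.Agent.Y133.Half (ClassPred Sys pw)

variable {k : Type u} [Field k] {𝒱 : VarClass k} {ops : CycleOps 𝒱}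
  {W : WeilCohomology.{u, v} ops} {X : 𝒱.Obj} {D : X.Cycles} {Q R : ClassPred W}

/-- The pairing in complementary degrees is nondegenerate. -/
lemma nondeg_deg {Z : 𝒱.Obj} (hnd : R.sys.Nondeg Z) {j l : ℕ} (hjl : j + l = Z.dim) {x : W.H Z}
    (hx : R.P Z j x) (h : ∀ y, R.P Z l y → W.tr Z (x * y) = 0) : x = 0 := by
  apply hnd x (ClassPred.sp_of hx)
  intro y hy
  refine ClassPred.sp_ind (Q := R) (q := fun y => W.tr Z (x * y) = 0) ?_ ?_ ?_ hy
  · intro i y hy
    by_cases hi : i = l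
    · subst hi
      exact h y hy
    · exact W.tr_eq_zero (W.mul_mem (R.gr hx) (R.gr hy)) (by omega)
  · rw [mul_zero, map_zero]
  · intro a b ha hb
    rw [mul_add, map_add, ha, hb, add_zero]

/-- The pair of algebras of operators. -/
theorem pair_of_nondeg (hQR : ∀ {Z : 𝒱.Obj} {j : ℕ} {c : W.H Z}, Q.P Z j c → R.P Z j c)
    (hD : X.IsCyc 1 D) (hHL : HardLefschetz W X D) (hnd : R.sys.Nondeg (X.prod X))
    (hn : 1 ≤ X.dim) :
    Pair (W.gr X) X.dim (LinearMap.mulLeft W.K (W.cl X D)) (QOp Q X) (QOp R X) := by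
  obtain ⟨f, t, hf⟩ := low_of_nondeg (R := R) hD hHL hn (fun x hx h =>
    nondeg_deg hnd (l := X.dim - 1) (by rw [dim_prod]; omega) hx h)
  exact pred_pair hQR hD hHL t hf

/-- All classes of codimension `j` on `Z` with the property `R` have the property `Q`. -/
def Agree (Q R : ClassPred W) (Z : 𝒱.Obj) (j : ℕ) : Prop := ∀ c, R.P Z j c → Q.P Z j c

section One

variable (hQR : ∀ {Z : 𝒱.Obj} {j : ℕ} {c : W.H Z}, Q.P Z j c → R.P Z j c)
    (hD : X.IsCyc 1 D) (hHL : HardLefschetz W X D) (hnd : R.sys.Nondeg (X.prod X))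
    {d : ℕ} (hd : d < X.dim)

include hQR hD hHL hnd hd

theorem agree_iff : Agree Q R (X.prod X) d ↔
    ∀ (q : ℕ) (c : W.H (X.prod X)) (j j' : ℕ), R.P (X.prod X) q c →
      j + 2 * q = j' + 2 * X.dim → ActsOnlyOn W X j c → Far X.dim d j j' →
      Q.P (X.prod X) q c := by
  have P := pair_of_nondeg hQR hD hHL hnd (by omega)
  constructor
  · intro h q c j j' hc hjj hk hreg
    exact region P hd h hc hjj hk hreg
  · intro h c hc
    exact of_region P (fun c j j' hc hjj hk hreg => h d c j j' hc hjj hk hreg) hc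

theorem agree_range (h : Agree Q R (X.prod X) d) {q : ℕ} (hq : q ≤ d ∨ 2 * X.dim - d ≤ q) :
    Agree Q R (X.prod X) q := fun _ hc =>
  range (pair_of_nondeg hQR hD hHL hnd (by omega)) hd h hq hc

theorem agree_self (h : Agree Q R (X.prod X) d) {q : ℕ} (hq : q ≤ d ∨ X.dim - d ≤ q) :
    Agree Q R X q := fun _ hc =>
  self (pair_of_nondeg hQR hD hHL hnd (by omega)) hd h hq hc

theorem agree_inverse (h : Agree Q R (X.prod X) d) {i : ℕ} (hi : i ≤ d) {τ : W.H (X.prod X)}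
    (hτ : IsInverseClass W X D (X.dim - i) τ) : Q.P (X.prod X) i τ :=
  inverse (pair_of_nondeg hQR hD hHL hnd (by omega)) hd h hi hτ

end One

/-- The projections between the powers have sections. -/
lemma exists_section (X : 𝒱.Obj) {n m : ℕ} (h : n ≤ m) :
    ∃ (p : pw X m ⟶ pw X n) (s : pw X n ⟶ pw X m), s ≫ p = 𝟙 _ := by
  have hX : ∀ n, Nonempty (pw X n ⟶ X) := by
    intro n
    cases n with
    | zero => exact ⟨𝟙 X⟩
    | succ n => exact ⟨Obj.snd (pw X n) X⟩
  induction m, h using Nat.le_induction with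
  | base => exact ⟨𝟙 _, 𝟙 _, Category.comp_id _⟩
  | succ m hm ih =>
    obtain ⟨p, s, hs⟩ := ih
    obtain ⟨g⟩ := hX m
    have h1 : (s ≫ Obj.lift (𝟙 (pw X m)) g) ≫ Obj.fst (pw X m) X ≫ p = 𝟙 _ := by
      rw [Category.assoc, ← Category.assoc (Obj.lift _ _), Obj.lift_fst, Category.id_comp, hs]
    exact ⟨Obj.fst (pw X m) X ≫ p, s ≫ Obj.lift (𝟙 _) g, h1⟩

lemma dim_pw (X : 𝒱.Obj) (n : ℕ) : (pw X n).dim = (n + 1) * X.dim := by
  induction n with
  | zero => rw [zero_add, one_mul]; rfl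
  | succ n ih =>
    have : (pw X (n + 1)).dim = (pw X n).dim + X.dim := dim_prod _ _
    rw [this, ih]
    ring

lemma Agree.retract {Y Z : 𝒱.Obj} (p : Y ⟶ Z) (s : Z ⟶ Y) (hs : s ≫ p = 𝟙 _) {j : ℕ}
    (h : Agree Q R Y j) : Agree Q R Z j := by
  intro c hc
  have h1 := Q.map s (h _ (R.map p hc))
  rwa [← W.map_comp, hs, W.map_id] at h1

/-- **All powers.** -/
theorem agree_powers (hQR : ∀ {Z : 𝒱.Obj} {j : ℕ} {c : W.H Z}, Q.P Z j c → R.P Z j c)
    (hpol : ∀ n, ∃ D : (pw X n).Cycles, (pw X n).IsCyc 1 D ∧ HardLefschetz W (pw X n) D)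
    (hnd : ∀ Z, R.sys.Nondeg Z) (hn : 1 ≤ X.dim) :
    (∀ n j, Agree Q R (pw X n) j) ↔
      ∀ N, ∃ m d, N ≤ d ∧ d < (pw X m).dim ∧ Agree Q R ((pw X m).prod (pw X m)) d := by
  constructor
  · intro h N
    refine ⟨N, N, le_rfl, ?_, ?_⟩
    · rw [dim_pw]
      exact Nat.lt_of_lt_of_le (Nat.lt_succ_self N) (Nat.le_mul_of_pos_right _ hn)
    · have e := Pool.Agent.Y133.Half.pwAdd X N N
      exact Agree.retract e.inv e.hom e.hom_inv_id (h _ _)
  · intro h n j
    obtain ⟨m, d, h1, h2, h3⟩ := h ((n + 1) * X.dim)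
    obtain ⟨D, hD, hHL⟩ := hpol m
    have hmn : n ≤ m := by
      rw [dim_pw] at h2
      have h4 := lt_of_le_of_lt h1 h2
      have := Nat.lt_of_mul_lt_mul_right h4
      omega
    obtain ⟨p, s, hs⟩ := exists_section X hmn
    by_cases hj : j ≤ d
    · exact Agree.retract p s hs (agree_self hQR hD hHL (hnd _) h2 h3 (Or.inl hj))
    · intro c hc
      have h5 := R.gr hc
      rw [W.gr_eq_bot _ _ (by rw [dim_pw]; omega)] at h5
      rw [(Submodule.mem_bot _).1 h5]
      exact Q.zero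

end Pool.Agent.Q82.PD
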