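import Pool.Agent.Q82.OC.Main
import Pool.Agent.Q82.OC.LowR
import Pool.Agent.Q82.MH.Main
import Pool.Agent.W537.RangeA

/-!
# Two classes of cohomology classes which agree in one codimension on a square
-/

set_option autoImplicit false

open CategoryTheory AlgebraicGeometry Finset

universe u v

namespace Pool.Agent.Q82.PD

open Pool.Agent.H914 Pool.Agent.H447 Pool.Agent.W534 Pool.Agent.W537 Pool.Agent.TH132.A VarClass Obj
  WeilCohomology
open Pool.Agent.Q82.OC Pool.Agent.Q82.MH
open Pool.Agent.Y133.Half (ClassPred Sys)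

section Abs

variable {K : Type*} [Field K] [CharZero K] {V : Type*} [AddCommGroup V] [Module K V]
variable {gr : ℕ → Submodule K V} {n : ℕ} {L : Module.End K V} {R : ℤ → Module.End K V → Prop}

/-- **The lowering operator.** If a `K`-linear algebra of operators has no nonzero numerically
trivial operator of degree `1`, then it contains the lowering operator. -/
theorem f_mem_of_nondeg [Module.Finite K V] (hR : OpAlg gr R)
    (hK : ∀ (a : K) (d : ℤ) y, R d y → R d (a • y)) (h : DirectSum.IsInternal gr)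
    (hL : R 1 L) {f : Module.End K V} (t : Sl2 (wt h n) L f) (hf : IsHom gr (-2) f)
    (hN : ∀ u, R 1 u → (∀ y, R (-1) y → LinearMap.trace K V (par h * (u * y)) = 0) → u = 0) :
    R (-1) f := by
  have hLh : IsHom gr (2 * 1) L := hR.hom hL
  have hof : ∀ {d y}, y ∈ KS R d → R d y := by
    intro d y hy
    induction hy using Submodule.span_induction with
    | mem x hx => exact hx
    | zero => exact hR.zero _
    | add x y _ _ hx hy => exact hR.add hx hy
    | smul a x _ hx => exact hK a _ _ hx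
  set b : Module.End K V →ₗ[K] Module.End K V →ₗ[K] K :=
    LinearMap.mk₂ K (fun x y => LinearMap.trace K V (par h * (x * y)))
      (fun x y z => by rw [add_mul, mul_add, map_add])
      (fun a x y => by rw [smul_mul_assoc, mul_smul_comm, map_smul])
      (fun x y z => by rw [mul_add, mul_add, map_add])
      (fun a x y => by rw [mul_smul_comm, mul_smul_comm, map_smul]) with hb
  have hba : ∀ x y, b x y = LinearMap.trace K V (par h * (x * y)) := fun x y => rfl
  obtain ⟨w, hw, hw'⟩ := exists_rep_of_orth b (KS R (-1)) (KS R 1) (b f) (by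
    intro u hu h0
    have : u = 0 := by
      apply hN u (hof hu)
      intro y hy
      have h1 := h0 y (Submodule.subset_span hy)
      rw [hba, str_comm h (hR.hom hy)] at h1
      exact h1
    rw [this, map_zero])
  have hwR := hof hw
  have hδ : (adL K L ^ (2 * 1)) f = (((-1) ^ 1 * (2 * 1).factorial : ℤ) : K) • L := by
    simpa using adL_pow_f_pow (K := K) t 1
  set c : ℤ := (-1) ^ 1 * (2 * 1).factorial with hc
  have hδw : R 1 ((adL K L ^ (2 * 1)) w) := hR.cast (adL_mem hR hL hwR (2 * 1)) (by norm_num)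
  have hkey : (adL K L ^ (2 * 1)) w - (c : K) • L = 0 := by
    apply hN _ (hR.sub hδw (hK _ _ _ hL))
    intro y hy
    have hδy : R 1 ((adL K L ^ (2 * 1)) y) := hR.cast (adL_mem hR hL hy (2 * 1)) (by norm_num)
    have e1 := hw' _ (Submodule.subset_span hδy)
    rw [hba, hba] at e1
    rw [sub_mul, mul_sub, map_sub, str_adL_even h hLh, e1, ← str_adL_even h hLh, hδ, sub_self]
  have hfr : IsHom gr (-(2 * 1 : ℕ)) f := by
    simpa using hf
  have hwh : IsHom gr (-(2 * 1 : ℕ)) w := by
    have := hR.hom hwR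
    simpa using this
  have : w - f = 0 := by
    apply adL_inj h t (hwh.sub hfr)
    rw [map_sub, hδ, hkey]
  rw [← sub_eq_zero.1 this]
  exact hwR

end Abs

variable {k : Type u} [Field k] {𝒱 : VarClass k} {ops : CycleOps 𝒱}
  {W : WeilCohomology.{u, v} ops} {X : 𝒱.Obj} {D : X.Cycles} {Q R : ClassPred W}

/-- The lowering operator is given by a class with the property `R`, if the pairing of the classes
with this property in the codimensions `n + 1` and `n - 1` on the square is nondegenerate. -/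
theorem low_of_nondeg (hD : X.IsCyc 1 D) (hHL : HardLefschetz W X D) (hn : 1 ≤ X.dim)
    (hnd : ∀ x, R.P (X.prod X) (X.dim + 1) x →
      (∀ y, R.P (X.prod X) (X.dim - 1) y → W.tr _ (x * y) = 0) → x = 0) :
    ∃ f, Low W X D f ∧ QOp R X (-1) f := by
  have hLh := mulLeft_hom (W := W) hD
  obtain ⟨f, t, hf, -⟩ := exists_sl2 (W.isInternal X) hLh W_hbd hHL
  refine ⟨f, t, f_mem_of_nondeg qop_opAlg (fun a d y h => h.ksmul a) (W.isInternal X)
    (QOp.of_rop (Q := R) (rop_mulLeft (W := W) hD)) t hf ?_⟩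
  intro u hu h0
  obtain ⟨c, hc, rfl⟩ := QOp.exists_class (p := X.dim + 1) (by push_cast; ring) hu
  have : c = 0 := by
    apply hnd c hc
    intro e he
    rw [tr_mul_eq_trace (R.gr hc), mul_assoc]
    exact h0 _ (QOp.corr (by omega) (R.map (swap X X) he))
  rw [this]
  exact corr_zero (W := W) (X := X) (Y := X)

/-- The operators given by the classes with the smaller property. -/
lemma qop_mono (hQR : ∀ {Z : 𝒱.Obj} {j : ℕ} {c : W.H Z}, Q.P Z j c → R.P Z j c) {d : ℤ}
    {y : Module.End W.K (W.H X)} (hy : QOp Q X d y) : QOp R X d y := by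
  obtain ⟨c, hc, rfl⟩ := Sys.mem_Op.1 hy.1
  refine ⟨Sys.Op.corr (S := R.sys) ?_, hy.2⟩
  refine ClassPred.sp_ind (Q := Q) (q := fun c => c ∈ R.sp (X.prod X)) ?_ ?_ ?_ hc
  · intro j x hx
    exact ClassPred.sp_of (hQR hx)
  · exact Submodule.zero_mem _
  · intro a b ha hb
    exact Submodule.add_mem _ ha hb

/-- The pair of algebras of operators. -/
theorem pred_pair (hQR : ∀ {Z : 𝒱.Obj} {j : ℕ} {c : W.H Z}, Q.P Z j c → R.P Z j c)
    (hD : X.IsCyc 1 D) (hHL : HardLefschetz W X D) {f : Module.End W.K (W.H X)}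
    (t : Low W X D f) (hf : QOp R X (-1) f) :
    Pair (W.gr X) X.dim (LinearMap.mulLeft W.K (W.cl X D)) (QOp Q X) (QOp R X) where
  hR := qop_opAlg
  hT := qop_opAlg
  le h := qop_mono hQR h
  int := W.isInternal X
  bd := W_hbd
  L_mem := QOp.of_rop (rop_mulLeft (W := W) hD)
  HL := hHL
  inv c hc u hu := by
    refine (proj_of_inv qop_opAlg (W.isInternal X) W_hbd
      (QOp.of_rop (Q := R) (rop_mulLeft (W := W) hD)) hHL (c₀ := 0) ?_ (X.dim - c) (by omega) c
      (Nat.zero_le _) (by omega)).2.2 u hu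
    intro c _ hc
    obtain ⟨ν, hν, hνi⟩ := inj_of_low t hf c hc
    obtain ⟨θ, hθ, hθi⟩ := qop_opAlg.exists_theta_of_inj
      (L := LinearMap.mulLeft W.K (W.cl X D))
      (Submodule.subset_span (QOp.of_rop (Q := R) (rop_mulLeft (W := W) hD))) hHL (c := c) hc
      (ν := ν) (Submodule.subset_span hν) hνi
    exact ⟨θ, QOp.of_ks hθ, hθi⟩

section Main

variable (P : Pair (W.gr X) X.dim (LinearMap.mulLeft W.K (W.cl X D)) (QOp Q X) (QOp R X))

lemma cls_of_qop {q : ℕ} {c : W.H (X.prod X)} (h : QOp Q X ((q : ℤ) - X.dim) (W.corr c)) :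
    Q.P (X.prod X) q c := by
  obtain ⟨γ, hγ, h1⟩ := QOp.exists_class (p := q) (by omega) h
  have : c = γ := MH.corr_ext h1.symm
  rw [this]
  exact hγ

lemma hyp {d : ℕ} (hd : d < X.dim) (h : ∀ c, R.P (X.prod X) d c → Q.P (X.prod X) d c) :
    ∀ u, QOp R X (-((X.dim - d : ℕ) : ℤ)) u → QOp Q X (-((X.dim - d : ℕ) : ℤ)) u := by
  intro u hu
  obtain ⟨c, hc, rfl⟩ := QOp.exists_class (p := d) (by omega) hu
  exact QOp.corr (by omega) (h c hc)

include P

/-- The far Kunneth types. -/
theorem region {d : ℕ} (hd : d < X.dim) (h : ∀ c, R.P (X.prod X) d c → Q.P (X.prod X) d c)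
    {q : ℕ} {c : W.H (X.prod X)} (hc : R.P (X.prod X) q c) {j j' : ℕ}
    (hjj : j + 2 * q = j' + 2 * X.dim) (hk : ActsOnlyOn W X j c) (hreg : Far X.dim d j j') :
    Q.P (X.prod X) q c := by
  apply cls_of_qop
  rw [Far] at hreg
  refine P.pure (r := X.dim - d) (by omega) (hyp hd h) (QOp.corr (by omega) hc) (j := j)
    (j' := j') (by omega) hk ?_
  rw [abs_sub_comm (j : ℤ), abs_sub_comm (j' : ℤ)]
  omega

theorem of_region {d : ℕ} (h : ∀ (c : W.H (X.prod X)) (j j' : ℕ), R.P (X.prod X) d c →
      j + 2 * d = j' + 2 * X.dim → ActsOnlyOn W X j c → Far X.dim d j j' → Q.P (X.prod X) d c)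
    {c : W.H (X.prod X)} (hc : R.P (X.prod X) d c) : Q.P (X.prod X) d c := by
  have hu : QOp R X ((d : ℤ) - X.dim) (W.corr c) := QOp.corr (by omega) hc
  have hj : ∀ j, ∃ cj, W.corr cj = W.corr c * proj (W.isInternal X) j := fun j => exists_corr _
  choose cj hcj using hj
  have hop : ∀ j, QOp R X ((d : ℤ) - X.dim) (W.corr (cj j)) := by
    intro j
    rw [hcj]
    exact P.hT.cast (P.hT.mul hu (P.proj_T j)) (by ring)
  have hcls : ∀ j, R.P (X.prod X) d (cj j) := fun j => cls_of_qop (hop j)
  have hspan : ∀ j, Q.P (X.prod X) d (cj j) := by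
    intro j
    have hact : ActsOnlyOn W X j (cj j) := by
      intro i hi a ha
      change W.corr (cj j) a = 0
      rw [hcj, Module.End.mul_apply, proj_ne _ (show a ∈ W.gr X i from ha) hi, map_zero]
    by_cases hjd : 2 * X.dim ≤ j + 2 * d
    · refine h (cj j) j (j + 2 * d - 2 * X.dim) (hcls j) (by omega) hact ?_
      have h1 : ((j + 2 * d - 2 * X.dim : ℕ) : ℤ) = j + 2 * d - 2 * X.dim := by omega
      rw [Far, h1]
      have h2 := neg_abs_le ((X.dim : ℤ) - j)
      have h3 := le_abs_self ((X.dim : ℤ) - (j + 2 * d - 2 * X.dim))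
      omega
    · have : cj j = 0 := by
        apply corr_inj
        apply gr_ext (W.isInternal X)
        intro i a ha
        rw [LinearMap.zero_apply]
        by_cases hi : i = j
        · subst hi
          have h1 := (hop i).2 i a (by rwa [grZ_natCast])
          rw [grZ_of_neg (by omega)] at h1
          exact (Submodule.mem_bot _).1 h1
        · exact hact i hi a ha
      rw [this]
      exact Q.zero
  have hsum : c = ∑ j ∈ Finset.range (2 * X.dim + 1), cj j := by
    apply MH.corr_ext
    have h2 : W.corr (∑ j ∈ Finset.range (2 * X.dim + 1), cj j) =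
        ∑ j ∈ Finset.range (2 * X.dim + 1), W.corr (cj j) :=
      map_sum (corrLin W X X) cj (Finset.range (2 * X.dim + 1))
    rw [h2]
    simp only [hcj]
    rw [← Finset.mul_sum, sum_proj (W.isInternal X) (fun i hi => W_hbd i hi), mul_one]
  rw [hsum]
  exact Finset.sum_induction _ (fun c => Q.P (X.prod X) d c) (fun _ _ => Q.add) Q.zero
    fun j _ => hspan j

/-- The codimensions on the square. -/
theorem range {d : ℕ} (hd : d < X.dim) (h : ∀ c, R.P (X.prod X) d c → Q.P (X.prod X) d c)
    {q : ℕ} (hq : q ≤ d ∨ 2 * X.dim - d ≤ q) {c : W.H (X.prod X)} (hc : R.P (X.prod X) q c) :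
    Q.P (X.prod X) q c := by
  apply cls_of_qop
  have h1 : QOp R X ((q : ℤ) - X.dim) (W.corr c) := QOp.corr (by omega) hc
  rcases hq with h2 | h2
  · rw [show (q : ℤ) - X.dim = -((X.dim - q : ℕ) : ℤ) by omega] at h1 ⊢
    exact P.low (r := X.dim - d) (by omega) (hyp hd h) (by omega) h1
  · rw [show (q : ℤ) - X.dim = ((q - X.dim : ℕ) : ℤ) by omega] at h1 ⊢
    exact P.high (r := X.dim - d) (by omega) (hyp hd h) (by omega) h1

/-- The classes of the inverses of the Lefschetz isomorphisms. -/
theorem inverse {d : ℕ} (hd : d < X.dim) (h : ∀ c, R.P (X.prod X) d c → Q.P (X.prod X) d c)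
    {i : ℕ} (hi : i ≤ d) {τ : W.H (X.prod X)} (hτ : IsInverseClass W X D (X.dim - i) τ) :
    Q.P (X.prod X) i τ := by
  apply cls_of_qop
  have := P.inv_mem (r := X.dim - d) (by omega) (hyp hd h) (X.dim - i) (by omega)
    (by omega) _ hτ.2
  rwa [show -((X.dim - i : ℕ) : ℤ) = (i : ℤ) - X.dim by omega] at this

/-- The variety itself. -/
theorem self {d : ℕ} (hd : d < X.dim) (h : ∀ c, R.P (X.prod X) d c → Q.P (X.prod X) d c)
    {q : ℕ} (hq : q ≤ d ∨ X.dim - d ≤ q) {c : W.H X} (hc : R.P X q c) : Q.P X q c := by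
  rcases hq with h1 | h1
  · have h3 := Q.map (diag X) (range P hd h (Or.inl h1) (R.map (Obj.fst X X) hc))
    rw [← W.map_comp, show diag X ≫ Obj.fst X X = 𝟙 X from Obj.lift_fst _ _, W.map_id] at h3
    exact h3
  · have h2 : QOp R X (q : ℤ) (LinearMap.mulLeft W.K c) := by
      have h3 := QOp.corr (Z := X) (p := X.dim + q) (d := q) (by push_cast; ring)
        (R.push (diag X) (j := q) (l := X.dim + q) (by rw [dim_prod]; ring) hc)
      have h4 : W.corr (W.push (diag X) c) = LinearMap.mulLeft W.K c := by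
        apply LinearMap.ext
        intro x
        rw [corr_apply, ← W.push_mul, ← W.map_comp,
          show diag X ≫ Obj.fst X X = 𝟙 X from Obj.lift_fst _ _, W.map_id,
          ← W.push_comp, show diag X ≫ Obj.snd X X = 𝟙 X from Obj.lift_snd _ _, W.push_id,
          LinearMap.mulLeft_apply]
      rwa [h4] at h3
    have h3 := P.high (r := X.dim - d) (by omega) (hyp hd h) (by omega) h2
    have h4 := QOp.apply (p := 0) (q := q) (by push_cast; ring) h3
      (ClassPred.one (Q := Q) X)
    rwa [LinearMap.mulLeft_apply, mul_one] at h4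

end Main

end Pool.Agent.Q82.PD
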